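import Pool.Agent.Lib_MP_22bcea_gt.Final
import Pool.Agent.Lib_MP_22bcea_gt.InvA
import Pool.Agent.Lib_MP_22bcea_gt.InvB

/-!
# Centrally symmetric tight tori

Every centrally symmetric tight torus in a Euclidean space lies in an affine subspace of
dimension at most four through its centre of symmetry.
-/

open Topology
open scoped RealInnerProductSpace

namespace Pool.Agent.Results.MP_22bcea_gt.CentralSymmetry

open Pool.Agent.Lib_MP_22bcea_gt

lemma invProp : InvProp := by
  intro O K σ hO hσ hσO hσσ hfix hK hKO
  by_cases hne : O = Set.univ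
  · subst hne
    obtain ⟨c, h1, h2, h3⟩ := exists_odd_of_free_involution σ (continuousOn_univ.1 hσ)
      (fun x => hσσ x (Set.mem_univ x)) (fun x => hfix x (Set.mem_univ x))
    exact ⟨c, h1.continuousOn, fun x _ => h2 x, fun x _ => h3 x⟩
  · exact exists_odd_of_involution_open hO hne σ hσ hσO hσσ hfix hK hKO

/-- **Centrally symmetric tight tori.** Let `f` be a continuous and locally injective map of the
torus into Euclidean `N`-space such that the preimage of every closed half-space is connected
(or empty); this holds in particular for every tight topological immersion. If the image of `f`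
is symmetric about the point `z`, then it lies in `z + L` for a linear subspace `L` of dimension
at most four. -/
theorem result (N : ℕ) (f : AddCircle (1 : ℝ) × AddCircle (1 : ℝ) → EuclideanSpace ℝ (Fin N))
    (hcont : Continuous f) (himm : ∀ x, ∃ U ∈ 𝓝 x, Set.InjOn f U)
    (htight : ∀ (v : EuclideanSpace ℝ (Fin N)) (c : ℝ), v ≠ 0 →
      IsPreconnected {x | c ≤ ⟪v, f x⟫})
    (z : EuclideanSpace ℝ (Fin N))
    (hsym : ∀ p ∈ Set.range f, (2 : ℝ) • z - p ∈ Set.range f) :
    ∃ L : Submodule ℝ (EuclideanSpace ℝ (Fin N)),
      Module.finrank ℝ L ≤ 4 ∧ ∀ p ∈ Set.range f, p - z ∈ L := by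
  let L : Submodule ℝ (EuclideanSpace ℝ (Fin N)) := Submodule.span ℝ (Set.range fun x => f x - z)
  have hmem : ∀ x, f x - z ∈ L := fun x => Submodule.subset_span ⟨x, rfl⟩
  let g : T2 → L := fun x => ⟨f x - z, hmem x⟩
  have hg : Setup g := by
    refine ⟨?_, ?_, ?_, ?_, ?_⟩
    · exact (hcont.sub continuous_const).subtype_mk _
    · intro x
      obtain ⟨U, hU, hinj⟩ := himm x
      refine ⟨U, hU, fun a ha b hb hab => hinj ha hb ?_⟩
      have := congrArg Subtype.val hab
      simpa [g] using this
    · intro v c
      have hset : {x | c ≤ ⟪v, g x⟫} =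
          {x | c + ⟪(v : EuclideanSpace ℝ (Fin N)), z⟫ ≤
            ⟪(v : EuclideanSpace ℝ (Fin N)), f x⟫} := by
        ext x
        have e : ⟪v, g x⟫ = ⟪(v : EuclideanSpace ℝ (Fin N)), f x - z⟫ := rfl
        simp only [Set.mem_ofPred_eq, e, inner_sub_right]
        constructor
        · intro h; linarith
        · intro h; linarith
      rw [hset]
      by_cases hv : (v : EuclideanSpace ℝ (Fin N)) = 0
      · rw [hv]
        simp only [inner_zero_left, add_zero]
        by_cases hc : c ≤ 0
        · have : {x : T2 | c ≤ 0} = Set.univ := by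
            ext x; simp [hc]
          rw [this, ← surjective_proj.range_eq, ← Set.image_univ]
          exact isPreconnected_univ.image _ continuous_proj.continuousOn
        · have : {x : T2 | c ≤ 0} = ∅ := by
            ext x; simp [hc]
          rw [this]
          exact isPreconnected_empty
      · exact htight _ _ hv
    · intro x
      obtain ⟨y, hy⟩ := hsym (f x) ⟨x, rfl⟩
      refine ⟨y, Subtype.ext ?_⟩
      change f y - z = -(f x - z)
      rw [hy, two_smul]
      abel
    · have h1 : Submodule.map L.subtype (Submodule.span ℝ (Set.range g)) =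
          Submodule.map L.subtype ⊤ := by
        rw [Submodule.map_span, ← Set.range_comp, Submodule.map_subtype_top]
        rfl
      exact Submodule.map_injective_of_injective L.injective_subtype h1
  refine ⟨L, hg.finrank_le_four invProp, ?_⟩
  rintro _ ⟨x, rfl⟩
  exact hmem x

end Pool.Agent.Results.MP_22bcea_gt.CentralSymmetry
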